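import Pool.Agent.U115.WM.Stm

/-!
# Project WM (helper115): the assembly
-/

set_option autoImplicit false

open scoped Classical
open Matrix

namespace Pool.Agent.U115.WM

theorem typ_mono {n k : ℕ} {C : ℝ} {B : Matrix (Fin n) (Fin k) ℤ} (h : Red C B) :
    Monotone (typ B) := fun _ _ hij =>
  Nat.log_mono_right (Int.toNat_le_toNat (h.mono hij))

/-- the integer vectors in the column space -/
def sat {n m : ℕ} (A : Matrix (Fin n) (Fin m) ℤ) : Set (Fin n → ℤ) :=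
  {v | ∃ d : ℤ, d ≠ 0 ∧ ∃ w : Fin m → ℤ, d • v = A *ᵥ w}

theorem isBas_iff {n m k : ℕ} {A : Matrix (Fin n) (Fin m) ℤ} {B : Matrix (Fin n) (Fin k) ℤ} :
    IsBas A B ↔ Inj B ∧ lat B = sat A := by
  unfold IsBas
  refine and_congr_right fun _ => ?_
  exact ⟨fun h => Set.ext h, fun h v => by rw [h]; rfl⟩

theorem exists_red {n k : ℕ} {C₀ : ℝ} (hV : S_COV)
    (hR : ∀ B : Matrix (Fin n) (Fin k) ℤ, Inj B →
      ∃ U : Matrix (Fin k) (Fin k) ℤ, IsUnit U.det ∧ Red C₀ (B * U))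
    (B : Matrix (Fin n) (Fin k) ℤ) (hB : Inj B) :
    ∃ B' : Matrix (Fin n) (Fin k) ℤ, Red C₀ B' ∧ lat B' = lat B := by
  obtain ⟨U, hU, h⟩ := hR B hB
  exact ⟨B * U, h, (hV.2.1 n k B U hU).1⟩

/-- both kinds of matrices at once -/
theorem fmat (hR : S_RED) (hV : S_COV) (hL : S_CNTL) (hA : S_ABS) (hZ : S_ZB) (hE : S_EXB)
    (hD : S_DEC) (n k : ℕ) (s : Prop) (ι : Type) [Fintype ι] (u : ι → Fin k × Fin k)
    (ρ : ℝ) (hρ : 0 ≤ ρ) (hk : 1 ≤ k) (X : Matrix (Fin n) (Fin n) ℤ → Prop)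
    (hX : ∀ A, X A → (Aᵀ = A ∨ Aᵀ = -A))
    (hu : ∀ Q Q' : Matrix (Fin k) (Fin k) ℤ, ∀ A A', X A → X A' →
      ((Aᵀ = A → Qᵀ = Q) ∧ (Aᵀ = -A → Qᵀ = -Q)) → ((A'ᵀ = A' → Q'ᵀ = Q') ∧ (A'ᵀ = -A' → Q'ᵀ = -Q')) →
      (∀ α, Q (u α).1 (u α).2 = Q' (u α).1 (u α).2) → Q = Q')
    (hC : ∀ (e : Fin k → ℕ) (M : ℝ), Monotone e → 0 < M → (∀ i, (2 : ℝ) ^ (e i + e i.rev) ≤ M) →
      ∏ α : ι, max 1 (M / 2 ^ (e (u α).1 + e (u α).2)) ≤
        (M ^ (k : ℝ) * vol e ^ (-2 : ℝ)) ^ ρ * gap e ∧ vol e ^ (2 : ℝ) ≤ M ^ (k : ℝ))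
    (a b α : ℝ) (ha : 0 < a) (hb : 0 < k * b + 2 * a) (h1 : k * ρ ≤ a * α)
    (h2 : (k : ℝ) * n ≤ α * (k * b + 2 * a)) :
    ∃ C : ℝ, ∀ T : ℝ, 1 ≤ T →
      {A : Matrix (Fin n) (Fin n) ℤ | X A ∧ Prim A ∧ (A.map (Int.cast : ℤ → ℚ)).rank = k ∧
        ∃ (B : Matrix (Fin n) (Fin k) ℤ) (h : ℝ), IsBas A B ∧ 0 < h ∧ (∀ i j, |(A i j : ℝ)| ≤ h) ∧
        h ^ a * cov B ^ b ≤ T}.Finite ∧
      ({A : Matrix (Fin n) (Fin n) ℤ | X A ∧ Prim A ∧ (A.map (Int.cast : ℤ → ℚ)).rank = k ∧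
        ∃ (B : Matrix (Fin n) (Fin k) ℤ) (h : ℝ), IsBas A B ∧ 0 < h ∧ (∀ i j, |(A i j : ℝ)| ≤ h) ∧
        h ^ a * cov B ^ b ≤ T}.ncard : ℝ) ≤ C * T ^ α * (1 + Real.log T) ^ k := by
  obtain ⟨C₀, hC₀, hR⟩ := hR n k
  obtain ⟨C₁, hC₁, hQ⟩ := hD n k C₀ hC₀
  set P : Type := {A : Matrix (Fin n) (Fin n) ℤ // X A ∧ (A.map (Int.cast : ℤ → ℚ)).rank = k}
    with hP
  set cf : Matrix (Fin n) (Fin k) ℤ → P → ι → ℤ := fun B p α =>
    if h : Red C₀ B ∧ IsBas p.1 B then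
      (hQ p.1 B (hX _ p.2.1) h.1 h.2).choose (u α).1 (u α).2 else 0 with hcf
  have hcf' : ∀ (p : P) (B) (h1 : Red C₀ B) (h2 : IsBas p.1 B), ∀ α, cf B p α =
      (hQ p.1 B (hX _ p.2.1) h1 h2).choose (u α).1 (u α).2 := by
    intro p B h1 h2 α
    rw [hcf]
    simp only
    rw [dif_pos ⟨h1, h2⟩]
  have key := hA hL hV n k ι (fun e α => 2 ^ (e (u α).1 + e (u α).2))
    (fun e M => ∀ i, (2 : ℝ) ^ (e i + e i.rev) ≤ M) k 2 ρ C₀ C₁ P (fun p => sat p.1)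
    (fun p h => ∀ i j, |(p.1 i j : ℝ)| ≤ h) cf (by exact_mod_cast hk) hρ hC₀ hC₁
    (fun e α => by positivity) (fun e M M' h hM i => (h i).trans hM)
    (fun p => by
      obtain ⟨B, hB⟩ := hE n n k p.1 p.2.2
      rw [isBas_iff] at hB
      obtain ⟨B', h1, h2⟩ := exists_red hV hR B hB.1
      exact ⟨B', h1, h2.trans hB.2⟩)
    (fun p h B h0 hh hB hl => by
      have hb : IsBas p.1 B := isBas_iff.2 ⟨hB.inj, hl⟩
      have hs := (hQ p.1 B (hX _ p.2.1) hB hb).choose_spec.1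
      set Q := (hQ p.1 B (hX _ p.2.1) hB hb).choose with hQd
      obtain ⟨-, -, -, hdet, hbd⟩ := hs
      have hbd' := hbd h hh
      refine ⟨fun α => ?_, ?_⟩
      · rw [hcf' p B hB hb α]
        exact hbd' _ _
      · exact (hZ k Q (typ B) (C₁ * h) (typ_mono hB) hdet).1 hbd')
    (fun p p' B hB hl hl' hc => by
      have hb : IsBas p.1 B := isBas_iff.2 ⟨hB.inj, hl⟩
      have hb' : IsBas p'.1 B := isBas_iff.2 ⟨hB.inj, hl'⟩
      have hs := (hQ p.1 B (hX _ p.2.1) hB hb).choose_spec.1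
      have hs' := (hQ p'.1 B (hX _ p'.2.1) hB hb').choose_spec.1
      have hc' : ∀ α, (hQ p.1 B (hX _ p.2.1) hB hb).choose (u α).1 (u α).2 =
          (hQ p'.1 B (hX _ p'.2.1) hB hb').choose (u α).1 (u α).2 := fun α => by
        rw [← hcf' p B hB hb α, ← hcf' p' B hB hb' α, hc]
      have e := hu _ _ p.1 p'.1 p.2.1 p'.2.1 ⟨hs.2.1, hs.2.2.1⟩ ⟨hs'.2.1, hs'.2.2.1⟩ hc'
      refine Subtype.ext ?_
      have g1 := hs.1
      have g2 := hs'.1
      rw [e] at g1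
      exact g1.trans g2.symm)
    ⟨1, fun e M he hM hN => by rw [one_mul]; exact (hC e M he hM hN).1⟩
    ⟨1, one_pos, fun e M he hM hN => by rw [one_mul]; exact (hC e M he hM hN).2⟩
    a b α ha hb h1 h2
  obtain ⟨C, hCC⟩ := key
  refine ⟨C, fun T hT => ?_⟩
  obtain ⟨hf, hn⟩ := hCC T hT
  set S := {p : P | ∃ (B : Matrix (Fin n) (Fin k) ℤ) (h : ℝ), Inj B ∧ lat B = sat p.1 ∧ 0 < h ∧
    (∀ i j, |(p.1 i j : ℝ)| ≤ h) ∧ h ^ a * cov B ^ b ≤ T} with hS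
  have hsub : {A : Matrix (Fin n) (Fin n) ℤ | X A ∧ Prim A ∧
        (A.map (Int.cast : ℤ → ℚ)).rank = k ∧
        ∃ (B : Matrix (Fin n) (Fin k) ℤ) (h : ℝ), IsBas A B ∧ 0 < h ∧ (∀ i j, |(A i j : ℝ)| ≤ h) ∧
        h ^ a * cov B ^ b ≤ T} ⊆ Subtype.val '' S := by
    rintro A ⟨hXA, -, hr, B, h, hB, h0, hh, hT'⟩
    exact ⟨⟨A, hXA, hr⟩, ⟨B, h, (isBas_iff.1 hB).1, (isBas_iff.1 hB).2, h0, hh, hT'⟩, rfl⟩
  have hfi : (Subtype.val '' S).Finite := hf.image _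
  refine ⟨hfi.subset hsub, ?_⟩
  calc ((_ : Set (Matrix (Fin n) (Fin n) ℤ)).ncard : ℝ) ≤ ((Subtype.val '' S).ncard : ℝ) := by
        exact_mod_cast Set.ncard_le_ncard hsub hfi
    _ ≤ (S.ncard : ℝ) := by exact_mod_cast Set.ncard_image_le hf
    _ ≤ _ := hn

theorem fsym (hR : S_RED) (hV : S_COV) (hL : S_CNTL) (hA : S_ABS) (hC : S_CMS) (hZ : S_ZB)
    (hE : S_EXB) (hD : S_DEC) : S_FSYM := by
  intro n k a b α hk ha hb h1 h2
  refine fmat hR hV hL hA hZ hE hD n k True {p : Fin k × Fin k // p.1 ≤ p.2} (fun α => α.1)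
    (((k : ℝ) + 1) / 2) (by positivity) hk (fun A => Aᵀ = A) (fun A h => Or.inl h) ?_
    (fun e M he hM hN => hC k e M he hM hN) a b α ha hb h1 h2
  intro Q Q' A A' hA1 hA2 hq hq' h
  ext i j
  have s1 := hq.1 hA1
  have s2 := hq'.1 hA2
  rcases le_total i j with hij | hij
  · exact h ⟨(i, j), hij⟩
  · have := h ⟨(j, i), hij⟩
    rw [← s1, ← s2]
    exact this

theorem falt (hR : S_RED) (hV : S_COV) (hL : S_CNTL) (hA : S_ABS) (hC : S_CMS) (hC' : S_CMA)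
    (hZ : S_ZB) (hE : S_EXB) (hD : S_DEC) : S_FALT := by
  intro n k a b α hk ha hb h1 h2
  refine fmat hR hV hL hA hZ hE hD n k True {p : Fin k × Fin k // p.1 < p.2} (fun α => α.1)
    (((k : ℝ) - 1) / 2) (by
      have : (1 : ℝ) ≤ k := by exact_mod_cast hk
      linarith) hk (fun A => Aᵀ = -A) (fun A h => Or.inr h) ?_
    (fun e M he hM hN => ⟨hC' k e M hk he hM hN, (hC k e M he hM hN).2⟩) a b α ha hb h1 h2
  intro Q Q' A A' hA1 hA2 hq hq' h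
  ext i j
  have s1 := hq.2 hA1
  have s2 := hq'.2 hA2
  have t1 : ∀ i j, Q j i = - Q i j := fun i j => by
    have := congrFun (congrFun s1 i) j
    simpa using this
  have t2 : ∀ i j, Q' j i = - Q' i j := fun i j => by
    have := congrFun (congrFun s2 i) j
    simpa using this
  rcases lt_trichotomy i j with hij | hij | hij
  · exact h ⟨(i, j), hij⟩
  · subst hij
    have e1 := t1 i i
    have e2 := t2 i i
    omega
  · have := h ⟨(j, i), hij⟩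
    rw [t1 j i, t2 j i]
    exact congrArg _ this

theorem fqua (hR : S_RED) (hV : S_COV) (hL : S_CNTL) (hA : S_ABS) (hC : S_CMQ) (hZ : S_ZB)
    (hD : S_DCQ) : S_FQUA := by
  intro n k a b α hk ha hb h1 h2
  obtain ⟨C₀, hC₀, hR⟩ := hR n k
  set cf : Matrix (Fin n) (Fin k) ℤ → QPt n k → {p : Fin k × Fin k // p.1 ≤ p.2} → ℤ :=
    fun B p α => if h : Red C₀ B ∧ lat B = p.Λ then (hD n k C₀ p B h.1 h.2).choose α.1.1 α.1.2
      else 0 with hcf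
  have hcf' : ∀ (p : QPt n k) (B) (h1 : Red C₀ B) (h2 : lat B = p.Λ), ∀ α, cf B p α =
      (hD n k C₀ p B h1 h2).choose α.1.1 α.1.2 := by
    intro p B h1 h2 α
    rw [hcf]
    simp only
    rw [dif_pos ⟨h1, h2⟩]
  have key := hA hL hV n k {p : Fin k × Fin k // p.1 ≤ p.2}
    (fun e α => ((2 : ℝ) ^ (e α.1.1 + e α.1.2))⁻¹)
    (fun e M => ∀ i, 1 ≤ M * (2 : ℝ) ^ (e i + e i.rev)) k (-2) (((k : ℝ) + 1) / 2) C₀ 24 (QPt n k)
    (fun p => p.Λ) (fun p h => ∀ v ∈ p.Λ, |(p.f v : ℝ)| ≤ h * ∑ l, (v l : ℝ) ^ 2) cf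
    (by exact_mod_cast hk) (by positivity) hC₀ (by norm_num) (fun e α => by positivity)
    (fun e M M' h hM i => (h i).trans (mul_le_mul_of_nonneg_right hM (by positivity)))
    (fun p => by
      obtain ⟨B, c, hB, hl, -⟩ := p.ex
      obtain ⟨B', h1, h2⟩ := exists_red hV hR B hB
      exact ⟨B', h1, h2.trans hl⟩)
    (fun p h B h0 hh hB hl => by
      have hs := (hD n k C₀ p B hB hl).choose_spec.1
      set c := (hD n k C₀ p B hB hl).choose with hcd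
      obtain ⟨-, hdet, hbd⟩ := hs
      have hbd' := hbd h h0 hh
      refine ⟨fun α => ?_, ?_⟩
      · rw [hcf' p B hB hl α, ← div_eq_mul_inv, div_le_iff₀ (by positivity)]
        exact (hbd' _ _).2
      · refine (hZ k (c + cᵀ) (typ B) (24 * h) (typ_mono hB) hdet).2 (by positivity) fun i j => ?_
        exact (hbd' i j).1)
    (fun p p' B hB hl hl' hc => by
      have hs := (hD n k C₀ p B hB hl).choose_spec.1
      have hs' := (hD n k C₀ p' B hB hl').choose_spec.1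
      have hc' : ∀ α : {p : Fin k × Fin k // p.1 ≤ p.2},
          (hD n k C₀ p B hB hl).choose α.1.1 α.1.2 =
          (hD n k C₀ p' B hB hl').choose α.1.1 α.1.2 := fun α => by
        rw [← hcf' p B hB hl α, ← hcf' p' B hB hl' α, hc]
      have e : (hD n k C₀ p B hB hl).choose = (hD n k C₀ p' B hB hl').choose := by
        ext i j
        rcases le_or_gt i j with hij | hij
        · exact hc' ⟨(i, j), hij⟩
        · rw [hs.1.1 i j hij, hs'.1.1 i j hij]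
      have hf : p.f = p'.f := by
        funext v
        by_cases hv : v ∈ lat B
        · obtain ⟨x, rfl⟩ := hv
          have g1 := hs.1.2.1 x
          have g2 := hs'.1.2.1 x
          rw [e] at g1
          exact g1.trans g2.symm
        · rw [hs.1.2.2 v hv, hs'.1.2.2 v hv]
      have hΛ : p.Λ = p'.Λ := hl.symm.trans hl'
      cases p
      cases p'
      simp only at hf hΛ
      subst hf hΛ
      rfl)
    ⟨1, fun e M he hM hN => by
      have := (hC k e M he hM hN).1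
      simp only [div_inv_eq_mul, neg_neg, one_mul]
      exact this⟩
    ⟨1, one_pos, fun e M he hM hN => by rw [one_mul]; exact (hC k e M he hM hN).2⟩
    a b α ha (by linarith) h1 (by linarith)
  exact key

end Pool.Agent.U115.WM
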