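import Mathlib

/-!
# Project WM (helper115): the weak Manin conjecture for spaces of forms on subspaces

`X = ℙ(F(S)) → Gr(k,n)`, `S` the tautological bundle of rank `k`, over `ℚ`, all big classes `L`:

* symmetric matrices of rank `k`: `F(S) = Sym² S` (`S_FSYM`);
* alternating matrices of rank `k` (`k` even): `F(S) = Λ² S` (`S_FALT`);
* quadrics in linear subspaces of dimension `k` (pairs of points, conics, ...): `F(S) = Sym² S*`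
  (`S_FQUA`).

The method: a point is a primitive lattice `Λ` of rank `k` in `ℤⁿ` and an integral form on it (or on
its dual). Take a reduced basis of `Λ` with lengths `2 ^ e i`; there are at most
`C ∏ (2 ^ e i) ^ n / ∏_{p < q} 2 ^ (e q - e p)` lattices of type `e` (`S_CNTL`), and the numbers of forms of
height `M` is at most the product of the numbers of the choices of the coefficients. If the form is
nondegenerate then the coefficients which must vanish do not disturb (`S_CMS`, ...).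

Prove `theorem t_X : S_X` (in your own namespace). `Mathlib` only.
-/

set_option autoImplicit false

open scoped Classical
open Matrix

namespace Pool.Agent.U115.WM

/-- squared length of the `i`-th column -/
def N {n k : ℕ} (B : Matrix (Fin n) (Fin k) ℤ) (i : Fin k) : ℤ := ∑ l, B l i ^ 2

/-- the lattice generated by the columns -/
def lat {n k : ℕ} (B : Matrix (Fin n) (Fin k) ℤ) : Set (Fin n → ℤ) := Set.range fun c => B *ᵥ c

/-- the columns are independent -/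
def Inj {n k : ℕ} (B : Matrix (Fin n) (Fin k) ℤ) : Prop := ∀ c : Fin k → ℤ, B *ᵥ c = 0 → c = 0

/-- the covolume of the lattice generated by the columns -/
noncomputable def cov {n k : ℕ} (B : Matrix (Fin n) (Fin k) ℤ) : ℝ := √((Bᵀ * B).det : ℝ)

/-- the columns are independent and form a reduced basis, with the constant `C` -/
structure Red {n k : ℕ} (C : ℝ) (B : Matrix (Fin n) (Fin k) ℤ) : Prop where
  inj : Inj B
  pos : ∀ i, 1 ≤ N B i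
  mono : Monotone (N B)
  quo : ∀ (x : Fin k → ℝ) (i : Fin k),
    x i ^ 2 * (N B i : ℝ) ≤ C * ∑ l, (∑ j, (B l j : ℝ) * x j) ^ 2
  low : (∏ i, (N B i : ℝ)) ≤ C * ((Bᵀ * B).det : ℝ)
  upp : ((Bᵀ * B).det : ℝ) ≤ C * ∏ i, (N B i : ℝ)

/-- the type of a basis: `2 ^ e i ≤ |b_i| < 2 ^ (e i + 1)` -/
def typ {n k : ℕ} (B : Matrix (Fin n) (Fin k) ℤ) (i : Fin k) : ℕ := Nat.log 4 (N B i).toNat

/-- `∏ 2 ^ e i` -/
def vol {k : ℕ} (e : Fin k → ℕ) : ℝ := ∏ i, (2 : ℝ) ^ e i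

/-- `∏_{p < q} 2 ^ (e q - e p)` -/
def gap {k : ℕ} (e : Fin k → ℕ) : ℝ :=
  ∏ p : Fin k × Fin k with p.1 < p.2, (2 : ℝ) ^ (e p.2 - e p.1)

/-- **RED**, existence of reduced bases. Proof: apply `Pool.Agent.N507.PQ.hrb` (it is
`Pool.Agent.N783.PQ.S_HRB`; `python3 pool.py get Pool.Agent.N507.PQ.Hrb`) to `H = Bᵀ B` over `ℝ`, which is
positive definite as its determinant is not zero (`H x = 0 → |B x|² = 0 → ...`). Let `H` be the Gram
matrix of `B U`: `∏ H i i ≤ C det H`, monotone diagonal. `|H i j| ≤ √(H i i H j j)`, so by Leibniz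
(`Matrix.det_apply`) `det H ≤ k! ∏ H i i` (each permutation: `∏ √(H i i) √(H (σ i) (σ i)) = ∏ H i i`), and in the
same way the adjugate has `|adj H i i| ≤ k! ∏_{j ≠ i} H j j` (`adjugate_apply`: the determinant of `H` with the
row `i` replaced by the unit vector: only `σ` with `σ i = i` count). So `(H⁻¹) i i ≤ k! C / H i i`. For
`u = H⁻¹ e_i` one has `x_i² = (u ⬝ H x)² ≤ (u ⬝ H u) (x ⬝ H x) = (H⁻¹) i i (x ⬝ H x)` (Cauchy-Schwarz for `H`; see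
the proof of `Pool.Agent.N507.PQ.fin_le`), and `x ⬝ H x = |B U x|²`. -/
def S_RED : Prop := ∀ n k : ℕ, ∃ C : ℝ, 1 ≤ C ∧ ∀ B : Matrix (Fin n) (Fin k) ℤ, Inj B →
  ∃ U : Matrix (Fin k) (Fin k) ℤ, IsUnit U.det ∧ Red C (B * U)

/-- **COV**: the covolume depends only on the lattice, and unimodular changes do not change the lattice.
Proof: if `lat B = lat B'` then `B' = B U` and `B = B' V` with integral `U`, `V` (columns), so
`B (U V - 1) = 0`, `U V = 1` by `Inj`, `det U = ± 1` and `det (Bᵀ B)` is multiplied by `(det U)²`. -/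
def S_COV : Prop := (∀ (n k : ℕ) (B B' : Matrix (Fin n) (Fin k) ℤ), Inj B → Inj B' →
    lat B = lat B' → (Bᵀ * B).det = (B'ᵀ * B').det ∧ cov B = cov B') ∧
  (∀ (n k : ℕ) (B : Matrix (Fin n) (Fin k) ℤ) (U : Matrix (Fin k) (Fin k) ℤ), IsUnit U.det →
    lat (B * U) = lat B ∧ (Inj B → Inj (B * U)) ∧ ((B * U)ᵀ * (B * U)).det = (Bᵀ * B).det) ∧
  (∀ (n k : ℕ) (B : Matrix (Fin n) (Fin k) ℤ), Inj B → 1 ≤ (Bᵀ * B).det)

/-- **CNTL**, the number of lattices of type `e`. Proof: for `Λ ∈ 𝓛` choose such a `B_Λ`. Let `u` run over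
the matrices with `0 ≤ u p q < 2 ^ (e q - e p)` for `p < q` and `u p q = 0` else: their number is `gap e`. The
map `(Λ, u) ↦ B_Λ * (1 + u)` is injective: `1 + u` is upper triangular with diagonal `1`
(`Matrix.det_of_upperTriangular`), hence invertible over `ℤ`, so `lat (B_Λ * (1 + u)) = lat B_Λ = Λ`; then `u`
is determined by the independence of the columns. All entries of the column `q` of `B_Λ * (1 + u)` are at
most `2 ^ (e q + 1) + ∑_{p < q} 2 ^ (e q - e p) 2 ^ (e p + 1) ≤ k 2 ^ (e q + 1)` in absolute value (`|B l i| ≤ √(N B i)`),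
so there are at most `∏_q (4 k 2 ^ e q + 1) ^ n` such matrices. `C = (5 k + 1) ^ (n k)`. -/
def S_CNTL : Prop := ∀ n k : ℕ, ∃ C : ℝ, 1 ≤ C ∧ ∀ e : Fin k → ℕ, Monotone e →
  ∀ 𝓛 : Finset (Set (Fin n → ℤ)),
    (∀ Λ ∈ 𝓛, ∃ B : Matrix (Fin n) (Fin k) ℤ, Inj B ∧ lat B = Λ ∧ ∀ i, N B i < 4 ^ (e i + 1)) →
    (𝓛.card : ℝ) * gap e ≤ C * vol e ^ n

/-- **ABS**, the abstract count. `P` is a set of points; a point `p` has a lattice `Λ p`, and `H p h` says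
that its height (for the tautological class) is at most `h`. In a reduced basis `B` of `Λ p` it has
coordinates `cf B p α`, which determine `p`, and `|cf B p α| ≤ C₁ h / w e α`, `e = typ B`.

Proof. `B_Λ`: a chosen reduced basis for each lattice `Λ = Λ p`. The type of `p` is `e = typ B_(Λ p)`; it is
monotone, and `4 ^ e i ≤ N i < 4 ^ (e i + 1)`, so `vol e ≤ cov ≤ C vol e` up to a constant (`low`, `upp`, `S_COV`).
Let `S_e` be the set of the `p` of type `e` with `h ^ a * cov ^ b ≤ T` for some `h`. Then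
`h ≤ h_e := (C T vol(e) ^ (-b)) ^ (1/a)` for all these `p`; with `M = C₁ h_e`, `ND e M` holds if `S_e` is not
empty. For each lattice the number of the `p` is at most the number of the `c : ι → ℤ` with
`|c α| ≤ M / w e α`, so at most `∏ 3 max 1 (M / w e α)`; with `S_CNTL` and the first inequality
`#S_e ≤ C vol ^ n (M ^ κ vol ^ (-τ)) ^ ρ`. Let `y = M ^ κ vol ^ (-τ) ≥ c` (second inequality). As
`T = C M ^ a vol ^ b`, `T ^ α = C y ^ (a α / κ) vol ^ (α (b + τ a / κ)) ≥ C' y ^ ρ vol ^ n`. So `#S_e ≤ C T ^ α`. Also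
`T ≥ c (vol ^ τ) ^ (a / κ) vol ^ b = c vol ^ ((κ b + τ a) / κ)`, so `e i ≤ C (1 + log T)` for all `i` and there are at
most `(C (1 + log T)) ^ k` types. -/
def S_ABS : Prop := S_CNTL → S_COV →
  ∀ (n k : ℕ) (ι : Type) [Fintype ι] (w : (Fin k → ℕ) → ι → ℝ) (ND : (Fin k → ℕ) → ℝ → Prop)
    (κ τ ρ C₀ C₁ : ℝ) (P : Type) (Λ : P → Set (Fin n → ℤ)) (H : P → ℝ → Prop)
    (cf : Matrix (Fin n) (Fin k) ℤ → P → ι → ℤ),
  0 < κ → 0 ≤ ρ → 1 ≤ C₀ → 1 ≤ C₁ → (∀ e α, 0 < w e α) →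
  (∀ e M M', ND e M → M ≤ M' → ND e M') →
  (∀ p, ∃ B : Matrix (Fin n) (Fin k) ℤ, Red C₀ B ∧ lat B = Λ p) →
  (∀ p h B, 0 < h → H p h → Red C₀ B → lat B = Λ p →
    (∀ α, |(cf B p α : ℝ)| * w (typ B) α ≤ C₁ * h) ∧ ND (typ B) (C₁ * h)) →
  (∀ p p' B, Red C₀ B → lat B = Λ p → lat B = Λ p' → cf B p = cf B p' → p = p') →
  (∃ C : ℝ, ∀ (e : Fin k → ℕ) (M : ℝ), Monotone e → 0 < M → ND e M →
    ∏ α, max 1 (M / w e α) ≤ C * (M ^ κ * vol e ^ (-τ)) ^ ρ * gap e) →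
  (∃ c : ℝ, 0 < c ∧ ∀ (e : Fin k → ℕ) (M : ℝ), Monotone e → 0 < M → ND e M →
    c * vol e ^ τ ≤ M ^ κ) →
  ∀ a b α : ℝ, 0 < a → 0 < κ * b + τ * a → κ * ρ ≤ a * α → κ * n ≤ α * (κ * b + τ * a) →
    ∃ C : ℝ, ∀ T : ℝ, 1 ≤ T →
      {p : P | ∃ (B : Matrix (Fin n) (Fin k) ℤ) (h : ℝ), Inj B ∧ lat B = Λ p ∧ 0 < h ∧ H p h ∧
        h ^ a * cov B ^ b ≤ T}.Finite ∧
      ({p : P | ∃ (B : Matrix (Fin n) (Fin k) ℤ) (h : ℝ), Inj B ∧ lat B = Λ p ∧ 0 < h ∧ H p h ∧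
        h ^ a * cov B ^ b ≤ T}.ncard : ℝ) ≤ C * T ^ α * (1 + Real.log T) ^ k

/-! ### Combinatorial inequalities -/

/-- **CMS**. Proof (indices `0 .. k - 1`, `rev i = k - 1 - i`): `x i j = M / 2 ^ (e i + e j)`. If `i ≤ j` and
`i ≤ rev j` then `x i j ≥ M / 2 ^ (e (rev j) + e j) ≥ 1`. If `i ≤ j` and `rev j < i` then
`1 / x i j ≤ 2 ^ (e i + e j) / 2 ^ (e j + e (rev j)) = 2 ^ (e i - e (rev j))`, so
`max 1 (x i j) ≤ x i j * 2 ^ (e i - e (rev j))`, and `(i, j) ↦ (rev j, i)` is injective into the pairs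
`p < q`: `∏ max 1 x ≤ ∏ x * gap`. And `∏_{i ≤ j} 2 ^ (e i + e j) = vol ^ (k + 1)`, so
`∏ x = M ^ (k (k+1) / 2) / vol ^ (k + 1)`. Second part: multiply the hypotheses for all `i`. -/
def S_CMS : Prop := ∀ (k : ℕ) (e : Fin k → ℕ) (M : ℝ), Monotone e → 0 < M →
  (∀ i, (2 : ℝ) ^ (e i + e i.rev) ≤ M) →
  ∏ α : {p : Fin k × Fin k // p.1 ≤ p.2}, max 1 (M / 2 ^ (e α.1.1 + e α.1.2)) ≤
    (M ^ (k : ℝ) * vol e ^ (-2 : ℝ)) ^ (((k : ℝ) + 1) / 2) * gap e ∧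
  vol e ^ (2 : ℝ) ≤ M ^ (k : ℝ)

/-- **CMA**. The same proof, `∏_{i < j} 2 ^ (e i + e j) = vol ^ (k - 1)`. -/
def S_CMA : Prop := ∀ (k : ℕ) (e : Fin k → ℕ) (M : ℝ), 1 ≤ k → Monotone e → 0 < M →
  (∀ i, (2 : ℝ) ^ (e i + e i.rev) ≤ M) →
  ∏ α : {p : Fin k × Fin k // p.1 < p.2}, max 1 (M / 2 ^ (e α.1.1 + e α.1.2)) ≤
    (M ^ (k : ℝ) * vol e ^ (-2 : ℝ)) ^ (((k : ℝ) - 1) / 2) * gap e

/-- **CMQ**. `y i j = M 2 ^ (e i + e j)`. If `i ≤ j` and `rev i ≤ j` then `y i j ≥ 1`. If `i ≤ j < rev i` then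
`1 / y i j ≤ 2 ^ (e (rev i) - e j)`, and `(i, j) ↦ (j, rev i)` is injective into the pairs `p < q`. -/
def S_CMQ : Prop := ∀ (k : ℕ) (e : Fin k → ℕ) (M : ℝ), Monotone e → 0 < M →
  (∀ i, 1 ≤ M * (2 : ℝ) ^ (e i + e i.rev)) →
  ∏ α : {p : Fin k × Fin k // p.1 ≤ p.2}, max 1 (M * 2 ^ (e α.1.1 + e α.1.2)) ≤
    (M ^ (k : ℝ) * vol e ^ (2 : ℝ)) ^ (((k : ℝ) + 1) / 2) * gap e ∧
  vol e ^ (-2 : ℝ) ≤ M ^ (k : ℝ)

/-- **ZB**: a matrix with a big block of zeros has determinant zero. Proof of the first part: if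
`M < 2 ^ (e i + e (rev i))` then `Q p q = 0` for all `p ≥ i`, `q ≥ rev i` (an integer of absolute value `< 1`), so in
`det Q = ∑ sign σ ∏ Q (σ q) q` every product is zero: otherwise `σ` maps the `i + 1` elements `q ≥ rev i` into
the `i` elements `p < i`. Second part: `1 > M 2 ^ (e i + e (rev i))` gives `Q p q = 0` for `p ≤ i`, `q ≤ rev i`. -/
def S_ZB : Prop := ∀ (k : ℕ) (Q : Matrix (Fin k) (Fin k) ℤ) (e : Fin k → ℕ) (M : ℝ), Monotone e →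
  Q.det ≠ 0 →
  ((∀ i j, |(Q i j : ℝ)| * 2 ^ (e i + e j) ≤ M) → ∀ i, (2 : ℝ) ^ (e i + e i.rev) ≤ M) ∧
  (0 < M → (∀ i j, |(Q i j : ℝ)| ≤ M * 2 ^ (e i + e j)) → ∀ i, 1 ≤ M * (2 : ℝ) ^ (e i + e i.rev))

/-! ### Matrices of rank `k` -/

/-- the columns of `B` are a basis of the lattice of the integer vectors in the column space of `A` -/
def IsBas {n m k : ℕ} (A : Matrix (Fin n) (Fin m) ℤ) (B : Matrix (Fin n) (Fin k) ℤ) : Prop :=
  Inj B ∧ ∀ v : Fin n → ℤ, v ∈ lat B ↔ ∃ d : ℤ, d ≠ 0 ∧ ∃ w : Fin m → ℤ, d • v = A *ᵥ w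

/-- **EXB**. Proof: `Λ = {v | ∃ d ≠ 0, ∃ w, d v = A w}` is a submodule of `ℤⁿ`, so free
(`Submodule.basisOfPid` or `Module.Free`), with a basis of `r` elements, the columns of `B`. Over `ℚ` the
column spaces of `A` and `B` are equal and the columns of `B` are independent
(`LinearIndependent.iff_fractionRing`), so `r = rank A = k`. -/
def S_EXB : Prop := ∀ (n m k : ℕ) (A : Matrix (Fin n) (Fin m) ℤ),
  (A.map (Int.cast : ℤ → ℚ)).rank = k → ∃ B : Matrix (Fin n) (Fin k) ℤ, IsBas A B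

/-- **DEC**. Proof. `A = B Y` with `Y` integral, as the columns of `A` are in `lat B` (`d = 1`). `G = Bᵀ B` has
determinant `D ≠ 0` and `adj(G) Bᵀ A = D Y`, so with `Aᵀ = ± A` the vector `D y_i` is in the column space of `A`
for each row `y_i` of `Y` (`D Yᵀ = Aᵀ B adj(G)ᵀ = ± A (B adj(G)ᵀ)`), hence `y_i = B q_i`, so `Y = Q Bᵀ` and
`A = B Q Bᵀ`. `Q` is unique by `Inj B`. `det Q ≠ 0`: each column `b_j` satisfies `d b_j = A w`, so
`B (d e_j - Q Bᵀ w) = 0`, `Q (Bᵀ w) = d e_j` for all `j`. Bounds: if `|A l j| ≤ h` then by `quo` for the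
columns of `Y` (`B Y = A`): `|Y i j|² N i ≤ C₀ n h²`; by `quo` for the rows (`B (Q i ·)ᵀ = y_i`):
`|Q i j|² N j ≤ C₀ ∑ l, Y i l² ≤ C₀ n (C₀ n h² / N i)`. So `|Q i j|² N i N j ≤ (C₀ n h)²`, and
`4 ^ (typ B i) ≤ N B i`. `C₁ = C₀ n + 1`. -/
def S_DEC : Prop := ∀ (n k : ℕ) (C₀ : ℝ), 1 ≤ C₀ → ∃ C₁ : ℝ, 1 ≤ C₁ ∧
  ∀ (A : Matrix (Fin n) (Fin n) ℤ) (B : Matrix (Fin n) (Fin k) ℤ), (Aᵀ = A ∨ Aᵀ = -A) →
    Red C₀ B → IsBas A B →
    ∃! Q : Matrix (Fin k) (Fin k) ℤ, A = B * Q * Bᵀ ∧ (Aᵀ = A → Qᵀ = Q) ∧ (Aᵀ = -A → Qᵀ = -Q) ∧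
      Q.det ≠ 0 ∧ ∀ h : ℝ, (∀ i j, |(A i j : ℝ)| ≤ h) →
        ∀ i j, |(Q i j : ℝ)| * 2 ^ (typ B i + typ B j) ≤ C₁ * h

/-- no common divisor of the entries -/
def Prim {n m : ℕ} (A : Matrix (Fin n) (Fin m) ℤ) : Prop := ∀ d : ℤ, (∀ i j, d ∣ A i j) → IsUnit d

/-- symmetric matrices of rank `k` and bounded height -/
def SymPts (n k : ℕ) (a b T : ℝ) : Set (Matrix (Fin n) (Fin n) ℤ) :=
  {A | Aᵀ = A ∧ Prim A ∧ (A.map (Int.cast : ℤ → ℚ)).rank = k ∧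
    ∃ (B : Matrix (Fin n) (Fin k) ℤ) (h : ℝ), IsBas A B ∧ 0 < h ∧ (∀ i j, |(A i j : ℝ)| ≤ h) ∧
      h ^ a * cov B ^ b ≤ T}

/-- alternating matrices of rank `k` and bounded height -/
def AltPts (n k : ℕ) (a b T : ℝ) : Set (Matrix (Fin n) (Fin n) ℤ) :=
  {A | Aᵀ = -A ∧ Prim A ∧ (A.map (Int.cast : ℤ → ℚ)).rank = k ∧
    ∃ (B : Matrix (Fin n) (Fin k) ℤ) (h : ℝ), IsBas A B ∧ 0 < h ∧ (∀ i j, |(A i j : ℝ)| ≤ h) ∧
      h ^ a * cov B ^ b ≤ T}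

/-- final statement for the symmetric matrices -/
def S_FSYM : Prop := ∀ (n k : ℕ) (a b α : ℝ), 1 ≤ k → 0 < a → 0 < k * b + 2 * a →
  k * (((k : ℝ) + 1) / 2) ≤ a * α → (k : ℝ) * n ≤ α * (k * b + 2 * a) →
  ∃ C : ℝ, ∀ T : ℝ, 1 ≤ T → (SymPts n k a b T).Finite ∧
    ((SymPts n k a b T).ncard : ℝ) ≤ C * T ^ α * (1 + Real.log T) ^ k

/-- final statement for the alternating matrices -/
def S_FALT : Prop := ∀ (n k : ℕ) (a b α : ℝ), 1 ≤ k → 0 < a → 0 < k * b + 2 * a →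
  k * (((k : ℝ) - 1) / 2) ≤ a * α → (k : ℝ) * n ≤ α * (k * b + 2 * a) →
  ∃ C : ℝ, ∀ T : ℝ, 1 ≤ T → (AltPts n k a b T).Finite ∧
    ((AltPts n k a b T).ncard : ℝ) ≤ C * T ^ α * (1 + Real.log T) ^ k

/-! ### Quadrics in linear subspaces of dimension `k` -/

/-- `f` is an integral quadratic form on the lattice with the basis `B`, with the coefficients
`c i j`, `i ≤ j`, and zero outside of the lattice -/
def IsForm {n k : ℕ} (B : Matrix (Fin n) (Fin k) ℤ) (c : Matrix (Fin k) (Fin k) ℤ)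
    (f : (Fin n → ℤ) → ℤ) : Prop :=
  (∀ i j, j < i → c i j = 0) ∧ (∀ x : Fin k → ℤ, f (B *ᵥ x) = ∑ i, ∑ j, c i j * x i * x j) ∧
    ∀ v, v ∉ lat B → f v = 0

/-- primitive lattices: the integer vectors in a subspace -/
def Sat {n : ℕ} (Λ : Set (Fin n → ℤ)) : Prop := ∀ (v : Fin n → ℤ) (d : ℤ), d ≠ 0 → d • v ∈ Λ → v ∈ Λ

/-- the points: a primitive lattice of rank `k` and a nondegenerate primitive quadratic form on it -/
structure QPt (n k : ℕ) where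
  Λ : Set (Fin n → ℤ)
  f : (Fin n → ℤ) → ℤ
  ex : ∃ (B : Matrix (Fin n) (Fin k) ℤ) (c : Matrix (Fin k) (Fin k) ℤ), Inj B ∧ lat B = Λ ∧ Sat Λ ∧
    IsForm B c f ∧ (c + cᵀ).det ≠ 0 ∧ Prim c

/-- **DCQ**. Proof: `f (B x)` for every basis `B` of the lattice is given by integral coefficients
(`f (b_i)` and `f (b_i + b_j) - f (b_i) - f (b_j)`), `B' = B U`, `c' + c'ᵀ = Uᵀ (c + cᵀ) U`. Bounds: `c i i = f (b_i)`,
so `|c i i| ≤ h N i`; for `i < j` and every integer `x ≥ 1`: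
`2 x c i j = f (x b_i + b_j) - f (x b_i - b_j)`, so `x |c i j| ≤ h (x² N i + N j)`; take `x = ⌈√(N j / N i)⌉ ≤ 2 √(N j / N i)`:
`|c i j| ≤ 3 h √(N i N j) ≤ 12 h 2 ^ (e i + e j)`. Then `|c i j + c j i| ≤ 24 h 2 ^ (e i + e j)`. `C₁ = 24`. -/
def S_DCQ : Prop := ∀ (n k : ℕ) (C₀ : ℝ) (p : QPt n k) (B : Matrix (Fin n) (Fin k) ℤ), Red C₀ B →
  lat B = p.Λ →
  ∃! c : Matrix (Fin k) (Fin k) ℤ, IsForm B c p.f ∧ (c + cᵀ).det ≠ 0 ∧
    ∀ h : ℝ, 0 < h → (∀ v ∈ p.Λ, |(p.f v : ℝ)| ≤ h * ∑ l, (v l : ℝ) ^ 2) →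
      ∀ i j, |((c i j + c j i : ℤ) : ℝ)| ≤ 24 * h * 2 ^ (typ B i + typ B j) ∧
        |(c i j : ℝ)| ≤ 24 * h * 2 ^ (typ B i + typ B j)

/-- final statement for the quadrics; `h` is a bound for the norm of the form with respect to the
euclidean norm of the subspace -/
def S_FQUA : Prop := ∀ (n k : ℕ) (a b α : ℝ), 1 ≤ k → 0 < a → 0 < k * b - 2 * a →
  k * (((k : ℝ) + 1) / 2) ≤ a * α → (k : ℝ) * n ≤ α * (k * b - 2 * a) →
  ∃ C : ℝ, ∀ T : ℝ, 1 ≤ T →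
    {p : QPt n k | ∃ (B : Matrix (Fin n) (Fin k) ℤ) (h : ℝ), Inj B ∧ lat B = p.Λ ∧ 0 < h ∧
      (∀ v ∈ p.Λ, |(p.f v : ℝ)| ≤ h * ∑ l, (v l : ℝ) ^ 2) ∧ h ^ a * cov B ^ b ≤ T}.Finite ∧
    ({p : QPt n k | ∃ (B : Matrix (Fin n) (Fin k) ℤ) (h : ℝ), Inj B ∧ lat B = p.Λ ∧ 0 < h ∧
      (∀ v ∈ p.Λ, |(p.f v : ℝ)| ≤ h * ∑ l, (v l : ℝ) ^ 2) ∧ h ^ a * cov B ^ b ≤ T}.ncard : ℝ) ≤
      C * T ^ α * (1 + Real.log T) ^ k

end Pool.Agent.U115.WM
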