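import Pool.Agent.U115.WM.Asm
import Pool.Agent.U580.WM.RED
import Pool.Agent.U333.WM.COV
import Pool.Agent.U283.WM.CNTL
import Pool.Agent.U694.WM.ABS
import Pool.Agent.U461.WM.CMS
import Pool.Agent.U375.WM.CMA
import Pool.Agent.U643.WM.CMQ
import Pool.Agent.U95.WM.ZB
import Pool.Agent.U618.WM.EXB
import Pool.Agent.U255.WM.DEC
import Pool.Agent.U784.WM.DCQ

/-!
# Project WM (helper115): the final statements
-/

set_option autoImplicit false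

namespace Pool.Agent.U115.WM

theorem t_fsym : S_FSYM := fsym Pool.Agent.U580.WM.t_RED Pool.Agent.U333.WM.t_COV
  Pool.Agent.U283.WM.CNTL.t_CNTL Pool.Agent.U694.WM.t_ABS Pool.Agent.U461.WM.t_CMS
  Pool.Agent.U95.WM.t_ZB Pool.Agent.U618.WM.t_EXB Pool.Agent.U255.WM.DEC.t_DEC

theorem t_falt : S_FALT := falt Pool.Agent.U580.WM.t_RED Pool.Agent.U333.WM.t_COV
  Pool.Agent.U283.WM.CNTL.t_CNTL Pool.Agent.U694.WM.t_ABS Pool.Agent.U461.WM.t_CMS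
  Pool.Agent.U375.WM.t_CMA Pool.Agent.U95.WM.t_ZB Pool.Agent.U618.WM.t_EXB
  Pool.Agent.U255.WM.DEC.t_DEC

theorem t_fqua : S_FQUA := fqua Pool.Agent.U580.WM.t_RED Pool.Agent.U333.WM.t_COV
  Pool.Agent.U283.WM.CNTL.t_CNTL Pool.Agent.U694.WM.t_ABS Pool.Agent.U643.WM.t_CMQ
  Pool.Agent.U95.WM.t_ZB Pool.Agent.U784.WM.DCQ.t_DCQ

end Pool.Agent.U115.WM
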